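import Pool.Agent.H46.VT.Tools

/-!
# MP_36d07e_lc, BC: the splitting construction is computable
-/

set_option autoImplicit false

namespace Pool.Agent.H30.VT.BC

open _root_.VT Pool.Agent.H46.VT
open Nat.Partrec (Code)
open Encodable Denumerable

section

variable {β : Type} [Primcodable β]

theorem co_bn {i : β → ℕ} (hi : Computable i) : Computable fun b => bn (i b) := co_unpair1 hi

theorem co_be {i : β → ℕ} (hi : Computable i) : Computable fun b => be (i b) :=
  co_ofNatCode (co_unpair1 hi)

theorem co_bP {i : β → ℕ} (hi : Computable i) : Computable fun b => bP (i b) :=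
  co_ofNatCode (co_unpair1 (co_unpair2 hi))

theorem co_bZ {i : β → ℕ} (hi : Computable i) : Computable fun b => bZ (i b) :=
  co_ofNatCode (co_unpair1 (co_unpair2 (co_unpair2 hi)))

theorem co_bv {i : β → ℕ} (hi : Computable i) : Computable fun b => bv (i b) :=
  co_ofNatCode (co_unpair1 (co_unpair2 (co_unpair2 (co_unpair2 hi))))

theorem co_bv' {i : β → ℕ} (hi : Computable i) : Computable fun b => bv' (i b) :=
  co_ofNatCode (co_unpair2 (co_unpair2 (co_unpair2 (co_unpair2 hi))))

theorem cp_Xs {i t x : β → ℕ} (hi : Computable i) (ht : Computable t) (hx : Computable x) :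
    ComputablePred fun b => Xs (i b) (t b) (x b) := by
  unfold Xs
  exact cp_or (cp_and (cp_wst (co_bP hi) ht hx) (cp_not (cp_wst (co_be hi) ht hx)))
    (cp_wst (co_bZ hi) ht hx)

end

section

variable (cU cC : Code) (E : ℕ → List ℕ) (p : ℕ → ℕ)

variable {β : Type} [Primcodable β]

theorem cp_psi (hE : Computable E) {F : β → ℕ → ℕ → ℕ}
    (hF : Computable fun q : β × ℕ × ℕ => F q.1 q.2.1 q.2.2) {i y t : β → ℕ} (hi : Computable i)
    (hy : Computable y) (ht : Computable t) :
    ComputablePred fun b => psi cU cC E (F b) (i b) (y b) (t b) := by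
  unfold psi
  have h1 := cp_wst (co_bv hi) ht hy
  have h2 := cp_wst (co_bv' hi) ht hy
  have h3 : ComputablePred fun b => Wst cU (t b) (y b) := cp_wst (Computable.const cU) ht hy
  have h4 : ComputablePred fun b => Wst cC (t b) (y b) := cp_wst (Computable.const cC) ht hy
  have h5 := cp_Xs hi ht hy
  have h6 : ComputablePred fun b => F b (t b) (y b) = bn (i b) + 1 :=
    cp_eq (hF.comp (Computable.id.pair (ht.pair hy))) (Computable.succ.comp (co_bn hi))
  have h7 : ComputablePred fun b => ¬ y b ∈ E (t b) := cp_not (cp_mem (hE.comp ht) hy)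
  exact cp_and (cp_iff h1 (cp_not h2))
    (cp_imp h1 (cp_and (cp_imp h3 (cp_imp (cp_not h4) h5)) (cp_imp h6 (cp_iff h5 h7))))

theorem co_ext {F : β → ℕ → ℕ → ℕ} (hF : Computable fun q : β × ℕ × ℕ => F q.1 q.2.1 q.2.2) :
    Computable fun q : (β × ℕ) × ℕ × ℕ => F q.1.1 q.2.1 q.2.2 :=
  hF.comp (((Computable.fst : Computable fun q : β × ℕ => q.1).comp Computable.fst).pair
    Computable.snd)

theorem co_11 : Computable fun q : (β × ℕ) × ℕ => q.1.1 := Computable.fst.comp Computable.fst

theorem co_12 : Computable fun q : (β × ℕ) × ℕ => q.1.2 := Computable.snd.comp Computable.fst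

theorem cp_BBig (hE : Computable E) {F : β → ℕ → ℕ → ℕ}
    (hF : Computable fun q : β × ℕ × ℕ => F q.1 q.2.1 q.2.2) {i s x : β → ℕ} (hi : Computable i)
    (hs : Computable s) (hx : Computable x) :
    ComputablePred fun b => BBig cU cC E (F b) (i b) (s b) (x b) := by
  unfold BBig
  have hx' : Computable fun q : β × ℕ => x q.1 := hx.comp Computable.fst
  have ht' : Computable fun q : β × ℕ => q.2 := Computable.snd
  have hi2 : Computable fun q : (β × ℕ) × ℕ => i q.1.1 := hi.comp co_11
  have hy2 : Computable fun q : (β × ℕ) × ℕ => q.2 := Computable.snd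
  have hF2 : Computable fun q : ((β × ℕ) × ℕ) × ℕ × ℕ => F q.1.1.1 q.2.1 q.2.2 :=
    co_ext (F := fun q : β × ℕ => F q.1) (co_ext hF)
  have h1 : ComputablePred fun q : (β × ℕ) × ℕ => psi cU cC E (F q.1.1) (i q.1.1) q.2 q.1.2 :=
    cp_psi cU cC E hE (F := fun q : (β × ℕ) × ℕ => F q.1.1) hF2 hi2 hy2 co_12
  have h2 : ComputablePred fun q : β × ℕ => ∀ y ≤ x q.1, psi cU cC E (F q.1) (i q.1) y q.2 :=
    cp_forall_le (p := fun (q : β × ℕ) y => psi cU cC E (F q.1) (i q.1) y q.2) h1 hx'
  exact cp_exists_le (p := fun b t => x b < t ∧ ∀ y ≤ x b, psi cU cC E (F b) (i b) y t)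
    (cp_and (cp_lt hx' ht') h2) hs

theorem cp_Tp (hE : Computable E) {F : β → ℕ → ℕ → ℕ}
    (hF : Computable fun q : β × ℕ × ℕ => F q.1 q.2.1 q.2.2) {i s x : β → ℕ} (hi : Computable i)
    (hs : Computable s) (hx : Computable x) :
    ComputablePred fun b => Tp cU cC E (F b) (i b) (s b) (x b) := by
  unfold Tp
  refine cp_exists_le (p := fun b t => Wst cU t (x b) ∧ ¬ Wst cC t (x b) ∧ Wst (bv (i b)) t (x b) ∧
    Xs (i b) t (x b) ∧ BBig cU cC E (F b) (i b) t (x b)) ?_ hs
  have hi' : Computable fun q : β × ℕ => i q.1 := hi.comp Computable.fst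
  have hx' : Computable fun q : β × ℕ => x q.1 := hx.comp Computable.fst
  have ht' : Computable fun q : β × ℕ => q.2 := Computable.snd
  exact cp_and (cp_wst (Computable.const cU) ht' hx') (cp_and
    (cp_not (cp_wst (Computable.const cC) ht' hx')) (cp_and (cp_wst (co_bv hi') ht' hx')
    (cp_and (cp_Xs hi' ht' hx')
      (cp_BBig cU cC E hE (F := fun q : β × ℕ => F q.1) (co_ext hF) hi' ht' hx'))))

theorem cp_won (hE : Computable E) (hp : Computable p) {F : β → ℕ → ℕ → ℕ}
    (hF : Computable fun q : β × ℕ × ℕ => F q.1 q.2.1 q.2.2) {i s : β → ℕ} (hi : Computable i)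
    (hs : Computable s) : ComputablePred fun b => won E p (F b) (i b) (s b) := by
  unfold won
  refine cp_exists_le (p := fun b t => ∃ x < s b, F b (s b) x = bn (i b) + 1 ∧
    Wst (bv (i b)) (s b) x ∧ Xs (i b) t x ∧ x ∈ E (p t)) ?_ hs
  refine cp_exists_lt (p := fun (q : β × ℕ) x => F q.1 (s q.1) x = bn (i q.1) + 1 ∧
    Wst (bv (i q.1)) (s q.1) x ∧ Xs (i q.1) q.2 x ∧ x ∈ E (p q.2)) ?_ (hs.comp Computable.fst)
  have hi' : Computable fun q : (β × ℕ) × ℕ => i q.1.1 :=
    hi.comp (Computable.fst.comp Computable.fst)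
  have hs' : Computable fun q : (β × ℕ) × ℕ => s q.1.1 :=
    hs.comp (Computable.fst.comp Computable.fst)
  have hx' : Computable fun q : (β × ℕ) × ℕ => q.2 := Computable.snd
  have ht' : Computable fun q : (β × ℕ) × ℕ => q.1.2 := Computable.snd.comp Computable.fst
  have hF' : Computable fun q : (β × ℕ) × ℕ => F q.1.1 (s q.1.1) q.2 :=
    hF.comp ((Computable.fst.comp Computable.fst).pair (hs'.pair hx'))
  exact cp_and (cp_eq hF' (Computable.succ.comp (co_bn hi'))) (cp_and
    (cp_wst (co_bv hi') hs' hx') (cp_and (cp_Xs hi' ht' hx')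
      (cp_mem (hE.comp (hp.comp ht')) hx')))

theorem cp_bcond (hE : Computable E) (hp : Computable p) {F : β → ℕ → ℕ → ℕ}
    (hF : Computable fun q : β × ℕ × ℕ => F q.1 q.2.1 q.2.2) {i s x : β → ℕ} (hi : Computable i)
    (hs : Computable s) (hx : Computable x) :
    ComputablePred fun b => bcond cU cC E p (F b) (i b) (s b) (x b) := by
  unfold bcond
  exact cp_and (cp_Tp cU cC E hE hF hi hs hx) (cp_not (cp_won E p hE hp hF hi hs))

open Classical in
theorem bpick_eq (a : ℕ → ℕ → ℕ) (s x : ℕ)
    (hex : ∃ i, (i < x ∧ bcond cU cC E p a i s x) ∨ i = x) :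
    bpick cU cC E p a s x =
      if Nat.find hex < x then bn (Nat.find hex) + 1 else 1 := by
  unfold bpick
  by_cases h : ∃ i, i < x ∧ bcond cU cC E p a i s x
  · rw [dif_pos h]
    have h1 : Nat.find hex = Nat.find h := by
      rw [Nat.find_eq_iff]
      refine ⟨Or.inl (Nat.find_spec h), ?_⟩
      rintro j hj (h2 | h2)
      · exact Nat.find_min h hj h2
      · have := (Nat.find_spec h).1
        omega
    rw [h1, if_pos (Nat.find_spec h).1]
  · rw [dif_neg h]
    have h1 : Nat.find hex = x := by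
      rw [Nat.find_eq_iff]
      refine ⟨Or.inr rfl, ?_⟩
      rintro j hj (h2 | h2)
      · exact h ⟨j, h2⟩
      · omega
    rw [h1, if_neg (lt_irrefl x)]

theorem co_bpick (hE : Computable E) (hp : Computable p) {F : β → ℕ → ℕ → ℕ}
    (hF : Computable fun q : β × ℕ × ℕ => F q.1 q.2.1 q.2.2) {s x : β → ℕ}
    (hs : Computable s) (hx : Computable x) :
    Computable fun b => bpick cU cC E p (F b) (s b) (x b) := by
  classical
  have hP : ComputablePred fun q : β × ℕ => (q.2 < x q.1 ∧
      bcond cU cC E p (F q.1) q.2 (s q.1) (x q.1)) ∨ q.2 = x q.1 := by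
    have hx' : Computable fun q : β × ℕ => x q.1 := hx.comp Computable.fst
    have hs' : Computable fun q : β × ℕ => s q.1 := hs.comp Computable.fst
    exact cp_or (cp_and (cp_lt Computable.snd hx')
      (cp_bcond cU cC E p hE hp (F := fun q : β × ℕ => F q.1) (co_ext hF) Computable.snd hs' hx'))
      (cp_eq Computable.snd hx')
  have hex : ∀ b, ∃ i, (i < x b ∧ bcond cU cC E p (F b) i (s b) (x b)) ∨ i = x b :=
    fun b => ⟨x b, Or.inr rfl⟩
  have hfind := co_find (P := fun b i => (i < x b ∧ bcond cU cC E p (F b) i (s b) (x b)) ∨ i = x b)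
    hP hex (fun _ _ => Classical.propDecidable _)
  have h2 := co_ite (cp_lt hfind hx) (Computable.succ.comp (co_bn hfind)) (Computable.const 1)
    (fun _ => Classical.propDecidable _)
  refine h2.of_eq ?_
  intro b
  rw [bpick_eq cU cC E p (F b) (s b) (x b) (hex b)]
  congr

/-! ### congruence -/

open Classical in
theorem bpick_congr {a a' : ℕ → ℕ → ℕ} {s : ℕ} (h : ∀ t ≤ s, ∀ y, a t y = a' t y) (x : ℕ) :
    bpick cU cC E p a s x = bpick cU cC E p a' s x := by
  have h1 : ∀ i t y, t ≤ s → (psi cU cC E a i y t ↔ psi cU cC E a' i y t) := by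
    intro i t y ht
    unfold psi
    rw [h t ht y]
  have h2 : ∀ i t y, t ≤ s → (BBig cU cC E a i t y ↔ BBig cU cC E a' i t y) := by
    intro i t y ht
    unfold BBig
    constructor
    · rintro ⟨t', ht', h3, h4⟩
      exact ⟨t', ht', h3, fun z hz => (h1 i t' z (by omega)).1 (h4 z hz)⟩
    · rintro ⟨t', ht', h3, h4⟩
      exact ⟨t', ht', h3, fun z hz => (h1 i t' z (by omega)).2 (h4 z hz)⟩
  have h3 : ∀ i, (bcond cU cC E p a i s x ↔ bcond cU cC E p a' i s x) := by
    intro i
    unfold bcond
    have h4 : Tp cU cC E a i s x ↔ Tp cU cC E a' i s x := by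
      unfold Tp
      constructor
      · rintro ⟨t, ht, b1, b2, b3, b4, b5⟩
        exact ⟨t, ht, b1, b2, b3, b4, (h2 i t x ht).1 b5⟩
      · rintro ⟨t, ht, b1, b2, b3, b4, b5⟩
        exact ⟨t, ht, b1, b2, b3, b4, (h2 i t x ht).2 b5⟩
    have h5 : won E p a i s ↔ won E p a' i s := by
      unfold won
      constructor
      · rintro ⟨t, ht, y, hy, b1, b2⟩
        exact ⟨t, ht, y, hy, by rw [← h s le_rfl y]; exact b1, b2⟩
      · rintro ⟨t, ht, y, hy, b1, b2⟩
        exact ⟨t, ht, y, hy, by rw [h s le_rfl y]; exact b1, b2⟩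
    rw [h4, h5]
  unfold bpick
  have h6 : (fun i => i < x ∧ bcond cU cC E p a i s x) =
      fun i => i < x ∧ bcond cU cC E p a' i s x := by
    funext i
    rw [h3 i]
  by_cases h7 : ∃ i, i < x ∧ bcond cU cC E p a i s x
  · have h8 : ∃ i, i < x ∧ bcond cU cC E p a' i s x := by
      obtain ⟨i, hi, hi2⟩ := h7
      exact ⟨i, hi, (h3 i).1 hi2⟩
    rw [dif_pos h7, dif_pos h8]
    congr 2
    rw [Nat.find_eq_iff]
    refine ⟨?_, ?_⟩
    · have h9 := Nat.find_spec h8
      exact ⟨h9.1, (h3 _).2 h9.2⟩
    · intro j hj h9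
      exact Nat.find_min h8 hj ⟨h9.1, (h3 _).1 h9.2⟩
  · have h8 : ¬ ∃ i, i < x ∧ bcond cU cC E p a' i s x := by
      rintro ⟨i, hi, hi2⟩
      exact h7 ⟨i, hi, (h3 i).2 hi2⟩
    rw [dif_neg h7, dif_neg h8]

/-! ### the history -/

/-- the function coded by a list of rows -/
def aH (h : List (List ℕ)) (t x : ℕ) : ℕ := (h.getD t []).getD x 0

open Classical in
/-- the value in the next row -/
noncomputable def nx (s : ℕ) (h : List (List ℕ)) (x : ℕ) : ℕ :=
  if Wst cC s x then aH h s x else if Wst cC (s + 1) x then bpick cU cC E p (aH h) s x else 0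

/-- the list of the rows up to stage `s` -/
noncomputable def hist : ℕ → List (List ℕ)
  | 0 => [[]]
  | s + 1 => hist s ++ [(List.range (s + 1)).map (nx cU cC E p s (hist s))]

theorem co_aH {h : β → List (List ℕ)} {t x : β → ℕ} (hh : Computable h) (ht : Computable t)
    (hx : Computable x) : Computable fun b => aH (h b) (t b) (x b) := by
  unfold aH
  exact co_getD 0 (co_getD [] hh ht) hx

theorem co_nx (hE : Computable E) (hp : Computable p) {s x : β → ℕ} {h : β → List (List ℕ)}
    (hs : Computable s) (hh : Computable h) (hx : Computable x) :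
    Computable fun b => nx cU cC E p (s b) (h b) (x b) := by
  have e1 : Computable fun q : β × ℕ × ℕ => h q.1 := hh.comp Computable.fst
  have e2 : Computable fun q : β × ℕ × ℕ => q.2.1 := Computable.fst.comp Computable.snd
  have e3 : Computable fun q : β × ℕ × ℕ => q.2.2 := Computable.snd.comp Computable.snd
  have hF : Computable fun q : β × ℕ × ℕ => aH (h q.1) q.2.1 q.2.2 := co_aH e1 e2 e3
  have hb : Computable fun b => bpick cU cC E p (aH (h b)) (s b) (x b) :=
    co_bpick cU cC E p hE hp (F := fun b => aH (h b)) hF hs hx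
  have hw1 : ComputablePred fun b => Wst cC (s b) (x b) := cp_wst (Computable.const cC) hs hx
  have hw2 : ComputablePred fun b => Wst cC (s b + 1) (x b) :=
    cp_wst (Computable.const cC) (Computable.succ.comp hs) hx
  have h1 : Computable fun b => @ite ℕ (Wst cC (s b + 1) (x b)) (Classical.propDecidable _)
      (bpick cU cC E p (aH (h b)) (s b) (x b)) 0 :=
    co_ite hw2 hb (Computable.const 0) (fun _ => Classical.propDecidable _)
  have h2 : Computable fun b => @ite ℕ (Wst cC (s b) (x b)) (Classical.propDecidable _)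
      (aH (h b) (s b) (x b)) (@ite ℕ (Wst cC (s b + 1) (x b)) (Classical.propDecidable _)
      (bpick cU cC E p (aH (h b)) (s b) (x b)) 0) :=
    co_ite hw1 (co_aH hh hs hx) h1 (fun _ => Classical.propDecidable _)
  refine h2.of_eq ?_
  intro b
  unfold nx
  by_cases c1 : Wst cC (s b) (x b)
  · rw [if_pos c1, if_pos c1]
  · rw [if_neg c1, if_neg c1]
    by_cases c2 : Wst cC (s b + 1) (x b)
    · rw [if_pos c2, if_pos c2]
    · rw [if_neg c2, if_neg c2]

theorem co_hist (hE : Computable E) (hp : Computable p) : Computable (hist cU cC E p) := by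
  have a1 : Computable fun r : (ℕ × (ℕ × List (List ℕ))) × ℕ => r.1.2.1 :=
    Computable.fst.comp (Computable.snd.comp Computable.fst)
  have a2 : Computable fun r : (ℕ × (ℕ × List (List ℕ))) × ℕ => r.1.2.2 :=
    Computable.snd.comp (Computable.snd.comp Computable.fst)
  have a3 : Computable fun r : (ℕ × (ℕ × List (List ℕ))) × ℕ => r.2 := Computable.snd
  have a4 : Computable fun r : (ℕ × (ℕ × List (List ℕ))) × ℕ =>
      nx cU cC E p r.1.2.1 r.1.2.2 r.2 := co_nx cU cC E p hE hp a1 a2 a3
  have e1 : Computable fun r : ℕ × (ℕ × List (List ℕ)) => r.2.2 :=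
    Computable.snd.comp Computable.snd
  have e0 : Computable fun r : ℕ × (ℕ × List (List ℕ)) => r.2.1 + 1 :=
    Computable.succ.comp (Computable.fst.comp Computable.snd)
  have e2 : Computable fun r : ℕ × (ℕ × List (List ℕ)) =>
      (List.range (r.2.1 + 1)).map (nx cU cC E p r.2.1 r.2.2) :=
    co_range_map (f := fun (r : ℕ × (ℕ × List (List ℕ))) x => nx cU cC E p r.2.1 r.2.2 x) a4 e0
  have hstep : Computable₂ fun (_ : ℕ) (q : ℕ × List (List ℕ)) =>
      q.2 ++ [(List.range (q.1 + 1)).map (nx cU cC E p q.1 q.2)] := by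
    exact Computable.list_concat.comp e1 e2
  have h1 := Computable.nat_rec (Computable.id (α := ℕ)) (Computable.const ([[]] : List (List ℕ)))
    hstep
  refine h1.of_eq ?_
  intro s
  induction s with
  | zero => rfl
  | succ s ih =>
    simp only [id] at ih ⊢
    rw [ih]
    rfl

theorem hist_length (s : ℕ) : (hist cU cC E p s).length = s + 1 := by
  induction s with
  | zero => rfl
  | succ s ih => rw [hist, List.length_append, ih]; rfl

theorem hist_getD {s t : ℕ} (h : t ≤ s) :
    (hist cU cC E p s).getD t [] = (hist cU cC E p t).getD t [] := by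
  induction s, h using Nat.le_induction with
  | base => rfl
  | succ n hn ih =>
    rw [← ih, hist, List.getD_append]
    rw [hist_length]
    omega

theorem aH_hist {s t : ℕ} (h : t ≤ s) (x : ℕ) :
    aH (hist cU cC E p s) t x = aH (hist cU cC E p t) t x := by
  unfold aH
  rw [hist_getD cU cC E p h]

theorem aH_succ (s x : ℕ) : aH (hist cU cC E p (s + 1)) (s + 1) x =
    if x < s + 1 then nx cU cC E p s (hist cU cC E p s) x else 0 := by
  have h1 : (hist cU cC E p (s + 1)).getD (s + 1) [] =
      (List.range (s + 1)).map (nx cU cC E p s (hist cU cC E p s)) := by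
    rw [hist, List.getD_append_right]
    · rw [hist_length]
      simp
    · rw [hist_length]
  unfold aH
  rw [h1]
  by_cases h : x < s + 1
  · rw [if_pos h, List.getD_eq_getElem _ _ (by simpa using h)]
    simp
  · rw [if_neg h, List.getD_eq_default _ _ (by simpa using h)]

theorem pf_BC' (hE : Computable E) (hp : Computable p) :
    ∃ a : ℕ → ℕ → ℕ, Computable₂ a ∧ BRun cU cC E p a := by
  classical
  refine ⟨fun s x => aH (hist cU cC E p s) s x, ?_, ?_, ?_⟩
  · have e1 : Computable fun q : ℕ × ℕ => hist cU cC E p q.1 :=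
      (co_hist cU cC E p hE hp).comp Computable.fst
    have e2 : Computable fun q : ℕ × ℕ => q.1 := Computable.fst
    have e3 : Computable fun q : ℕ × ℕ => q.2 := Computable.snd
    exact co_aH e1 e2 e3
  · intro x
    show aH [[]] 0 x = 0
    simp [aH]
  · intro s x
    show aH (hist cU cC E p (s + 1)) (s + 1) x = _
    have hc : bpick cU cC E p (aH (hist cU cC E p s)) s x =
        bpick cU cC E p (fun s x => aH (hist cU cC E p s) s x) s x :=
      bpick_congr cU cC E p (fun t ht y => aH_hist cU cC E p ht y) x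
    rw [aH_succ]
    by_cases h : x < s + 1
    · rw [if_pos h]
      unfold nx
      rw [hc]
    · rw [if_neg h]
      have h1 : ¬ Wst cC s x := fun h2 => by have := wst_lt h2; omega
      have h3 : ¬ Wst cC (s + 1) x := fun h2 => by have := wst_lt h2; omega
      rw [if_neg h1, if_neg h3]

end

theorem pf_BC : TARGET_BC := fun cU cC E p hE hp => pf_BC' cU cC E p hE hp

end Pool.Agent.H30.VT.BC
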