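import Pool.Agent.H46.VT.Tools

/-!
# MP_36d07e_lc, BK1: a requirement which acts infinitely often is true and never won
-/

set_option autoImplicit false

namespace Pool.Agent.H30.VT.BK1

open _root_.VT Pool.Agent.H46.VT
open Nat.Partrec (Code)

theorem bpick_ne_zero (cU cC : Code) (E : ℕ → List ℕ) (p : ℕ → ℕ) (a : ℕ → ℕ → ℕ) (s x : ℕ) :
    bpick cU cC E p a s x ≠ 0 := by
  unfold bpick
  split_ifs <;> omega

theorem a_eq_zero {cU cC : Code} {E : ℕ → List ℕ} {p : ℕ → ℕ} {a : ℕ → ℕ → ℕ}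
    (h : BRun cU cC E p a) (s x : ℕ) : a s x = 0 ↔ ¬ Wst cC s x := by
  induction s with
  | zero => simp [h.1 x, not_wst_zero]
  | succ s ih =>
    rw [h.2 s x]
    by_cases h1 : Wst cC s x
    · rw [if_pos h1]
      have h2 : Wst cC (s + 1) x := wst_mono (Nat.le_succ s) h1
      constructor
      · intro h3
        exact absurd h1 (ih.1 h3)
      · intro h3
        exact absurd h2 h3
    · rw [if_neg h1]
      by_cases h2 : Wst cC (s + 1) x
      · rw [if_pos h2]
        constructor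
        · intro h3
          exact absurd h3 (bpick_ne_zero cU cC E p a s x)
        · intro h3
          exact absurd h2 h3
      · rw [if_neg h2]
        exact ⟨fun _ => h2, fun _ => rfl⟩

theorem a_const {cU cC : Code} {E : ℕ → List ℕ} {p : ℕ → ℕ} {a : ℕ → ℕ → ℕ}
    (h : BRun cU cC E p a) {s t x : ℕ} (hst : s ≤ t) (hs : Wst cC s x) : a t x = a s x := by
  induction t, hst using Nat.le_induction with
  | base => rfl
  | succ n hn ih =>
    rw [h.2 n x, if_pos (wst_mono hn hs), ih]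

theorem a_keep {cU cC : Code} {E : ℕ → List ℕ} {p : ℕ → ℕ} {a : ℕ → ℕ → ℕ}
    (h : BRun cU cC E p a) {s t x n : ℕ} (hst : s ≤ t) (hs : a s x = n + 1) : a t x = n + 1 := by
  have h1 : Wst cC s x := by
    by_contra h2
    rw [(a_eq_zero h s x).2 h2] at hs
    omega
  rw [a_const h hst h1, hs]

/-- if `Xs i t x` holds for arbitrarily late `t` then `x` is in `XS i` -/
theorem XS_of_late {i x : ℕ} (h : ∀ N, ∃ t, N < t ∧ Xs i t x) : x ∈ XS i := by
  unfold XS
  by_cases hZ : x ∈ W (bZ i)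
  · exact Or.inr hZ
  · left
    have h1 : ∀ N, ∃ t, N < t ∧ Wst (bP i) t x ∧ ¬ Wst (be i) t x := by
      intro N
      obtain ⟨t, ht, hx⟩ := h N
      rcases hx with hx | hx
      · exact ⟨t, ht, hx⟩
      · exact absurd ⟨t, hx⟩ hZ
    obtain ⟨t0, _, h2, _⟩ := h1 0
    refine ⟨⟨t0, h2⟩, ?_⟩
    rintro ⟨s, hs⟩
    obtain ⟨t, ht, _, h3⟩ := h1 s
    exact h3 (wst_mono ht.le hs)

/-- if `x` is in `XS i` then `Xs i t x` for all late `t` -/
theorem late_of_XS {i x : ℕ} (h : x ∈ XS i) : ∃ N, ∀ t, N ≤ t → Xs i t x := by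
  unfold XS at h
  rcases h with ⟨⟨s, hs⟩, h2⟩ | ⟨s, hs⟩
  · refine ⟨s, fun t ht => Or.inl ⟨wst_mono ht hs, fun h3 => h2 ⟨t, h3⟩⟩⟩
  · exact ⟨s, fun t ht => Or.inr (wst_mono ht hs)⟩

theorem late {cU cC : Code} {E : ℕ → List ℕ} {p : ℕ → ℕ} {a : ℕ → ℕ → ℕ} {i : ℕ}
    (h : (Asg cU cC E p a i).Infinite) (y N : ℕ) : ∃ t, N < t ∧ psi cU cC E a i y t := by
  obtain ⟨x, hx, hlt⟩ := h.exists_gt (max y N)
  obtain ⟨s, _, _, _, ⟨⟨t, _, _, _, _, _, ⟨t', _, h1, h2⟩⟩, _⟩, _⟩ := hx
  have h3 := le_max_left y N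
  have h4 := le_max_right y N
  exact ⟨t', by omega, h2 y (by omega)⟩

theorem pf_BK1 : TARGET_BK1 := by
  intro cU cC E p a A hE hR _ _ i hinf
  have hlate := late hinf
  refine ⟨⟨?_, ?_, ?_⟩, ?_⟩
  · ext y
    constructor
    · intro hy
      obtain ⟨t, _, h1, _⟩ := hlate y 0
      by_contra h2
      have h3 : ¬ Wst (bv' i) t y := fun h4 => h2 ⟨t, h4⟩
      exact hy ⟨t, h1.2 h3⟩
    · rintro ⟨s, hs⟩ ⟨s', hs'⟩
      obtain ⟨t, ht, h1, _⟩ := hlate y (max s s')
      have h3 := le_max_left s s'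
      have h4 := le_max_right s s'
      exact h1.1 (wst_mono (by omega) hs') (wst_mono (by omega) hs)
  · intro y hU hV hC
    obtain ⟨s, hs⟩ := hU
    obtain ⟨s', hs'⟩ := hV
    apply XS_of_late
    intro N
    obtain ⟨t, ht, _, h1⟩ := hlate y (max N (max s s'))
    have h3 := le_max_left N (max s s')
    have h4 := le_max_right N (max s s')
    have h5 := le_max_left s s'
    have h6 := le_max_right s s'
    refine ⟨t, by omega, ?_⟩
    exact (h1 (wst_mono (by omega) hs')).1 (wst_mono (by omega) hs) (fun h7 => hC ⟨t, h7⟩)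
  · intro y hV hS
    obtain ⟨s, hs⟩ := hV
    obtain ⟨s', hs'⟩ := hS
    have h0 : ∀ N, ∃ t, N < t ∧ (Xs i t y ↔ y ∉ E t) := by
      intro N
      obtain ⟨t, ht, _, h1⟩ := hlate y (max N (max s s'))
      have h3 := le_max_left N (max s s')
      have h4 := le_max_right N (max s s')
      have h5 := le_max_left s s'
      have h6 := le_max_right s s'
      exact ⟨t, by omega, (h1 (wst_mono (by omega) hs)).2 (a_keep hR (by omega) hs')⟩
    constructor
    · intro hX hA
      obtain ⟨N, hN⟩ := late_of_XS hX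
      obtain ⟨s1, hs1⟩ := (hE.mem y).1 hA
      obtain ⟨t, ht, h1⟩ := h0 (max N s1)
      have h3 := le_max_left N s1
      have h4 := le_max_right N s1
      exact h1.1 (hN t (by omega)) (hE.mono s1 t y (by omega) hs1)
    · intro hA
      apply XS_of_late
      intro N
      obtain ⟨t, ht, h1⟩ := h0 N
      exact ⟨t, ht, h1.2 fun h2 => hA ((hE.mem y).2 ⟨t, h2⟩)⟩
  · intro x hV hS t hX hxE
    obtain ⟨s, hs⟩ := hV
    obtain ⟨s', hs'⟩ := hS
    apply hinf
    refine (Set.finite_lt_nat (max (max s s') (max t (x + 1)) + 1)).subset ?_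
    rintro z ⟨u, _, hz, _, ⟨_, hw⟩, _⟩
    have hzu : z < u + 1 := wst_lt hz
    have h3 := le_max_left s s'
    have h4 := le_max_right s s'
    have h5 := le_max_left t (x + 1)
    have h6 := le_max_right t (x + 1)
    have h7 := le_max_left (max s s') (max t (x + 1))
    have h8 := le_max_right (max s s') (max t (x + 1))
    by_contra hc
    have hc' : ¬ z < max (max s s') (max t (x + 1)) + 1 := hc
    apply hw
    exact ⟨t, by omega, x, by omega, a_keep hR (by omega) hs', wst_mono (by omega) hs, hX, hxE⟩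

end Pool.Agent.H30.VT.BK1
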