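import Pool.Agent.H46.VT.Red

/-!
# MP_36d07e_lc, CD: coding facts
-/

set_option autoImplicit false

namespace Pool.Agent.H30.VT.CD

open _root_.VT
open Nat.Partrec (Code)
open Encodable Denumerable

theorem mem_le_encode (l : List ℕ) (y : ℕ) (hy : y ∈ l) : y ≤ encode l := by
  induction l with
  | nil => simp at hy
  | cons b l ih =>
    rw [encode_list_cons]
    rcases List.mem_cons.1 hy with rfl | h
    · have h1 := Nat.left_le_pair (encode y) (encode l)
      have h2 : encode y = y := rfl
      rw [h2] at h1 ⊢
      omega
    · have h1 := Nat.right_le_pair (encode b) (encode l)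
      have := ih h
      omega

theorem getD_le_encode (l : List ℕ) (k : ℕ) : l.getD k 0 ≤ encode l := by
  by_cases h : k < l.length
  · rw [List.getD_eq_getElem _ _ h]
    exact mem_le_encode l _ (List.getElem_mem h)
  · rw [List.getD_eq_default _ _ (by omega)]
    exact Nat.zero_le _

theorem gX_le (x k : ℕ) : gX x k ≤ x := by
  have h1 := getD_le_encode (wX x) k
  have h2 : encode (wX x) = x.unpair.2.unpair.2 := by
    unfold wX
    exact encode_ofNat _
  have h3 := Nat.unpair_right_le x.unpair.2
  have h4 := Nat.unpair_right_le x
  unfold gX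
  omega

theorem x_eq (x : ℕ) : x = Nat.pair (mX x) (Nat.pair (eX x) (encode (wX x))) := by
  have h2 : encode (wX x) = x.unpair.2.unpair.2 := by
    unfold wX
    exact encode_ofNat _
  rw [h2]
  unfold mX eX
  rw [Nat.pair_unpair, Nat.pair_unpair]

theorem w_eq (f : ℕ → ℕ) (x : ℕ) (h1 : (wX x).length = LX x) (h2 : ∀ k < LX x, gX x k = f k) :
    wX x = (List.range (LX x)).map f := by
  apply List.ext_getElem
  · simp [h1]
  · intro k hk hk'
    have h3 := h2 k (by omega)
    unfold gX at h3
    rw [List.getD_eq_getElem _ _ hk] at h3
    rw [h3]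
    simp

theorem pf_CD : TARGET_CD := by
  refine ⟨gX_le, ?_, ?_, ?_⟩
  · intro n l b s s' t
    refine ⟨Nat.pair (Nat.pair l (Nat.pair (encode b) (Nat.pair (encode s)
      (Nat.pair (encode s') (encode t))))) n, Nat.right_le_pair _ _, ?_⟩
    unfold rl rb rs rs' rt
    simp only [Nat.unpair_pair, ofNat_encode, and_self]
  · intro f n
    have h : ((Set.Iic n ×ˢ Set.Iic n).image fun q : ℕ × ℕ =>
        Nat.pair q.1 (Nat.pair q.2 (encode ((List.range (q.1 + q.2)).map f)))).Finite :=
      ((Set.finite_Iic n).prod (Set.finite_Iic n)).image _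
    refine h.subset ?_
    rintro x ⟨h1, h2, h3⟩
    refine ⟨(mX x, eX x), ⟨?_, ?_⟩, ?_⟩
    · unfold LX at h1
      exact (Nat.le_add_right _ _).trans h1
    · unfold LX at h1
      exact (Nat.le_add_left _ _).trans h1
    · have h4 := w_eq f x h2 h3
      have h5 := x_eq x
      rw [h4] at h5
      exact h5.symm
  · intro f l
    have hm : mX (Nat.pair l.length (Nat.pair (encode l)
        (encode ((List.range (l.length + encode l)).map f)))) = l.length := by
      unfold mX; simp
    have he : eX (Nat.pair l.length (Nat.pair (encode l)
        (encode ((List.range (l.length + encode l)).map f)))) = encode l := by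
      unfold eX; simp
    have hw : wX (Nat.pair l.length (Nat.pair (encode l)
        (encode ((List.range (l.length + encode l)).map f)))) =
        (List.range (l.length + encode l)).map f := by
      unfold wX
      simp only [Nat.unpair_pair, ofNat_encode]
    refine ⟨_, hm, ?_, ?_, ?_⟩
    · unfold lX
      rw [hm, he, ofNat_encode, List.take_length]
    · unfold LX
      rw [hm, he, hw, List.length_map, List.length_range]
    · intro k hk
      unfold LX at hk
      rw [hm, he] at hk
      unfold gX
      rw [hw, List.getD_eq_getElem _ _ (by simpa using hk)]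
      simp

end Pool.Agent.H30.VT.CD
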